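import Mathlib

open Filter Topology

namespace Pool.Agent.Results.MP_b3b95b_an.BoundedDenseExtension

variable {𝕜 : Type*} [RCLike 𝕜] {E : Type*} [NormedAddCommGroup E] [NormedSpace 𝕜 E]

/-- uniform estimate on a finite dimensional space transversal to Y -/
theorem unif_estimate (Y W : Submodule 𝕜 E) (hY : IsClosed (Y : Set E)) [FiniteDimensional 𝕜 W]
    (hYW : Disjoint Y W) (g : ℕ → (E →L[𝕜] 𝕜)) (M : ℝ) (hM : 0 ≤ M)
    (hgM : ∀ n, ∀ y ∈ Y, ‖g n y‖ ≤ M * ‖y‖)
    (hg0 : ∀ y ∈ Y, Tendsto (fun n => g n y) atTop (𝓝 0)) (C : ℝ) (hC : 2 * M < C) :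
    ∀ᶠ n in atTop, ∀ y ∈ Y, ∀ w ∈ W, ‖g n y‖ ≤ C * ‖y + w‖ := by
  classical
  -- the unit sphere of W
  have hKc : IsCompact (Metric.sphere (0 : W) 1) := isCompact_sphere 0 1
  -- local statement
  have hloc : ∀ w0 : W, w0 ∈ Metric.sphere (0 : W) 1 → ∃ η > 0, ∀ᶠ n in atTop,
      ∀ w : W, ‖w - w0‖ < η → ∀ y ∈ Y, ‖g n y‖ ≤ C * ‖y + w‖ := by
    intro w0 hw0
    have hw0norm : ‖(w0 : E)‖ = 1 := by simpa using hw0
    have hw0Y : (w0 : E) ∉ (Y : Set E) := by
      intro h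
      have := Submodule.disjoint_def.mp hYW w0 h w0.2
      rw [this] at hw0norm
      simp at hw0norm
    have hd0 : 0 < Metric.infDist (w0 : E) (Y : Set E) :=
      (hY.notMem_iff_infDist_pos ⟨0, Y.zero_mem⟩).mp hw0Y
    set d0 := Metric.infDist (w0 : E) (Y : Set E) with hd0def
    set η := min (d0 / 2) ((C - 2 * M) * d0 / (2 * (3 * M + 1))) with hη
    have hηpos : 0 < η := by
      apply lt_min (by linarith)
      apply div_pos (mul_pos (by linarith) hd0) (by linarith)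
    obtain ⟨y1, hy1, hy1d⟩ := (Metric.infDist_lt_iff (⟨0, Y.zero_mem⟩ : (Y : Set E).Nonempty)).mp
      (show Metric.infDist (w0 : E) (Y : Set E) < d0 + η by linarith)
    -- y0 = - y1
    refine ⟨η, hηpos, ?_⟩
    have hev : ∀ᶠ n in atTop, ‖g n y1‖ < η := by
      have := (hg0 y1 hy1).norm
      rw [norm_zero] at this
      exact this.eventually (gt_mem_nhds hηpos)
    filter_upwards [hev] with n hn w hw y hy
    have h1 : ‖g n y‖ ≤ ‖g n (y + y1)‖ + ‖g n y1‖ := by
      have : g n y = g n (y + y1) - g n y1 := by rw [map_add]; ring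
      rw [this]
      exact norm_sub_le _ _
    have h2 : ‖g n (y + y1)‖ ≤ M * ‖y + y1‖ := hgM n _ (Y.add_mem hy hy1)
    have h3 : ‖y + y1‖ ≤ ‖y + (w : E)‖ + ‖(w : E) - w0‖ + ‖(w0 : E) - y1‖ := by
      have : y + y1 = (y + (w : E)) - ((w : E) - w0) - ((w0 : E) - y1) := by abel
      rw [this]
      exact (norm_sub_le _ _).trans (add_le_add_left (norm_sub_le _ _) _)
    have h4 : ‖(w : E) - w0‖ < η := by
      have : ‖w - w0‖ = ‖(w : E) - w0‖ := rfl
      rw [← this]; exact hw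
    have h5 : ‖(w0 : E) - y1‖ < d0 + η := by rwa [← dist_eq_norm]
    have h6 : d0 ≤ ‖y + (w : E)‖ + η := by
      have : d0 ≤ dist (w0 : E) (-y) := Metric.infDist_le_dist_of_mem (Y.neg_mem hy)
      rw [dist_eq_norm] at this
      have h7 : (w0 : E) - -y = (y + (w : E)) - ((w : E) - w0) := by abel
      rw [h7] at this
      have := this.trans (norm_sub_le _ _)
      linarith
    have hη1 : η ≤ d0 / 2 := min_le_left _ _
    have hη2 : η ≤ (C - 2 * M) * d0 / (2 * (3 * M + 1)) := min_le_right _ _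
    have h8 : (3 * M + 1) * η ≤ (C - 2 * M) * (d0 / 2) := by
      have : (3 * M + 1) * η ≤ (3 * M + 1) * ((C - 2 * M) * d0 / (2 * (3 * M + 1))) :=
        mul_le_mul_of_nonneg_left hη2 (by linarith)
      have h9 : (3 * M + 1) * ((C - 2 * M) * d0 / (2 * (3 * M + 1))) = (C - 2 * M) * (d0 / 2) := by
        have : (3 * M + 1) ≠ 0 := by linarith
        field_simp
      linarith
    have h10 : (C - 2 * M) * (d0 / 2) ≤ (C - 2 * M) * ‖y + (w : E)‖ :=
      mul_le_mul_of_nonneg_left (by linarith) (by linarith)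
    have h11 : M * ‖y + y1‖ ≤ M * (2 * ‖y + (w : E)‖ + 3 * η) :=
      mul_le_mul_of_nonneg_left (by linarith) hM
    nlinarith
  choose! η hηpos hηev using hloc
  obtain ⟨t, htK, htcov⟩ := hKc.elim_nhds_subcover (fun w0 => Metric.ball w0 (η w0))
    (fun w0 hw0 => Metric.ball_mem_nhds _ (hηpos w0 hw0))
  have hall : ∀ᶠ n in atTop, ∀ w0 ∈ t, ∀ w : W, ‖w - w0‖ < η w0 → ∀ y ∈ Y,
      ‖g n y‖ ≤ C * ‖y + w‖ := by
    rw [Finset.eventually_all]
    intro w0 hw0
    exact hηev w0 (htK w0 hw0)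
  filter_upwards [hall] with n hn y hy w hw
  by_cases hw0 : w = 0
  · subst hw0
    rw [add_zero]
    refine (hgM n y hy).trans (mul_le_mul_of_nonneg_right (by linarith) (norm_nonneg _))
  · have hwn : ‖w‖ ≠ 0 := norm_ne_zero_iff.mpr hw0
    set c : 𝕜 := ((‖w‖ : ℝ) : 𝕜)⁻¹ with hc
    have hcn : ‖c‖ = ‖w‖⁻¹ := by rw [hc, norm_inv, RCLike.norm_ofReal, abs_norm]
    let w' : W := c • ⟨w, hw⟩
    have hw' : w' ∈ Metric.sphere (0 : W) 1 := by
      rw [mem_sphere_zero_iff_norm]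
      change ‖c • w‖ = 1
      rw [norm_smul, hcn, inv_mul_cancel₀ hwn]
    obtain ⟨w0, hw0t, hw0b⟩ := Set.mem_iUnion₂.mp (htcov hw')
    have h1 := hn w0 hw0t w' (by rwa [Metric.mem_ball, dist_eq_norm] at hw0b) (c • y)
      (Y.smul_mem c hy)
    have h2 : c • y + (w' : E) = c • (y + w) := by
      rw [smul_add]; rfl
    rw [h2, map_smul, norm_smul, norm_smul, hcn] at h1
    have hpos : 0 < ‖w‖⁻¹ := inv_pos.mpr (lt_of_le_of_ne (norm_nonneg _) (Ne.symm hwn))
    have h3 : ‖w‖⁻¹ * ‖g n y‖ ≤ ‖w‖⁻¹ * (C * ‖y + w‖) := by linarith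
    exact le_of_mul_le_mul_left h3 hpos

/-- extension vanishing on W -/
theorem extend_vanish (Y W : Submodule 𝕜 E) (hYW : Disjoint Y W) (g : E →L[𝕜] 𝕜) (C : ℝ)
    (hC : 0 ≤ C) (h : ∀ y ∈ Y, ∀ w ∈ W, ‖g y‖ ≤ C * ‖y + w‖) :
    ∃ f : E →L[𝕜] 𝕜, (∀ y ∈ Y, f y = g y) ∧ (∀ w ∈ W, f w = 0) ∧ ‖f‖ ≤ C := by
  let p1 : E →ₗ.[𝕜] 𝕜 := ⟨Y, g.toLinearMap.domRestrict Y⟩
  let p2 : E →ₗ.[𝕜] 𝕜 := ⟨W, 0⟩
  have hagree : ∀ (x : p1.domain) (y : p2.domain), (x : E) = y → p1 x = p2 y :=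
    LinearPMap.sup_h_of_disjoint p1 p2 hYW
  let p := p1.sup p2 hagree
  have hdom : p.domain = Y ⊔ W := rfl
  have hval : ∀ (y : E) (hy : y ∈ Y) (w : E) (hw : w ∈ W) (z : p.domain), y + w = z → p z = g y := by
    intro y hy w hw z hz
    have := LinearPMap.sup_apply hagree ⟨y, hy⟩ ⟨w, hw⟩ z hz
    rw [this]
    change g y + 0 = g y
    rw [add_zero]
  have hbound : ∀ z : p.domain, ‖p.toFun z‖ ≤ C * ‖z‖ := by
    intro z
    obtain ⟨y, hy, w, hw, hz⟩ := Submodule.mem_sup.mp (show (z : E) ∈ Y ⊔ W from z.2)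
    have h1 : p.toFun z = g y := hval y hy w hw z hz
    rw [h1]
    have h2 : ‖z‖ = ‖y + w‖ := by
      change ‖(z : E)‖ = _
      rw [← hz]
    rw [h2]
    exact h y hy w hw
  let F : p.domain →L[𝕜] 𝕜 := LinearMap.mkContinuous p.toFun C hbound
  obtain ⟨f, hf1, hf2⟩ := exists_extension_norm_eq p.domain F
  refine ⟨f, ?_, ?_, ?_⟩
  · intro y hy
    have hy' : y ∈ p.domain := by
      rw [hdom]
      exact Submodule.mem_sup_left hy
    have h1 := hf1 ⟨y, hy'⟩
    have h2 : F ⟨y, hy'⟩ = g y := hval y hy 0 W.zero_mem ⟨y, hy'⟩ (add_zero y)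
    rw [← h2, ← h1]
  · intro w hw
    have hw' : w ∈ p.domain := by
      rw [hdom]
      exact Submodule.mem_sup_right hw
    have h1 := hf1 ⟨w, hw'⟩
    have h2 : F ⟨w, hw'⟩ = g 0 := hval 0 Y.zero_mem w hw ⟨w, hw'⟩ (zero_add w)
    rw [map_zero] at h2
    rw [← h2, ← h1]
  · rw [hf2]
    exact LinearMap.mkContinuous_norm_le _ hC _

/-- the main construction -/
theorem main_construction [TopologicalSpace.SeparableSpace E] (x : ℕ → E)
    (g : ℕ → (E →L[𝕜] 𝕜)) (hgx : ∀ i j, g i (x j) = if i = j then 1 else 0) (M : ℝ) (hM : 0 ≤ M)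
    (hgM : ∀ n, ∀ y ∈ (Submodule.span 𝕜 (Set.range x)).topologicalClosure, ‖g n y‖ ≤ M * ‖y‖)
    (C : ℝ) (hC : 2 * M < C) :
    ∃ f : ℕ → (E →L[𝕜] 𝕜),
      (∀ n, ∀ y ∈ (Submodule.span 𝕜 (Set.range x)).topologicalClosure, f n y = g n y) ∧
      (∀ n, ‖f n‖ ≤ C) ∧
      Dense (((Submodule.span 𝕜 (Set.range x)).topologicalClosure
        ⊔ ⨅ n, LinearMap.ker (f n : E →ₗ[𝕜] 𝕜) : Submodule 𝕜 E) : Set E) := by
  classical
  set Y := (Submodule.span 𝕜 (Set.range x)).topologicalClosure with hYdef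
  have hYc : IsClosed (Y : Set E) := Submodule.isClosed_topologicalClosure _
  have hC0 : 0 ≤ C := by linarith
  have hxY : ∀ n, x n ∈ Y := fun n =>
    Submodule.le_topologicalClosure _ (Submodule.subset_span ⟨n, rfl⟩)
  have hspan0 : ∀ s ∈ Submodule.span 𝕜 (Set.range x), ∃ N, ∀ n ≥ N, g n s = 0 := by
    intro s hs
    induction hs using Submodule.span_induction with
    | mem z hz =>
      obtain ⟨j, rfl⟩ := hz
      refine ⟨j + 1, fun n hn => ?_⟩
      rw [hgx, if_neg (by omega)]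
    | zero => exact ⟨0, fun n _ => map_zero _⟩
    | add a b _ _ ha hb =>
      obtain ⟨N1, h1⟩ := ha
      obtain ⟨N2, h2⟩ := hb
      refine ⟨max N1 N2, fun n hn => ?_⟩
      rw [map_add, h1 n (le_trans (le_max_left _ _) hn), h2 n (le_trans (le_max_right _ _) hn),
        add_zero]
    | smul c a _ ha =>
      obtain ⟨N1, h1⟩ := ha
      exact ⟨N1, fun n hn => by rw [map_smul, h1 n hn, smul_zero]⟩
  -- weak star null on Y
  have hg0 : ∀ y ∈ Y, Tendsto (fun n => g n y) atTop (𝓝 0) := by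
    intro y hy
    rw [Metric.tendsto_atTop]
    intro ε hε
    have hy' : y ∈ closure ((Submodule.span 𝕜 (Set.range x) : Submodule 𝕜 E) : Set E) := by
      rw [← Submodule.topologicalClosure_coe]; exact hy
    obtain ⟨s, hs, hsy⟩ := Metric.mem_closure_iff.mp hy' (ε / (M + 1)) (div_pos hε (by linarith))
    have hsY : s ∈ Y := Submodule.le_topologicalClosure _ hs
    obtain ⟨N, hN⟩ := hspan0 s hs
    refine ⟨N, fun n hn => ?_⟩
    rw [dist_zero_right]
    have h1 : g n y = g n (y - s) := by rw [map_sub, hN n hn, sub_zero]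
    rw [h1]
    have h2 := hgM n (y - s) (Y.sub_mem hy hsY)
    have h3 : ‖y - s‖ < ε / (M + 1) := by rwa [← dist_eq_norm]
    have h4 : M * ‖y - s‖ ≤ (M + 1) * ‖y - s‖ :=
      mul_le_mul_of_nonneg_right (by linarith) (norm_nonneg _)
    have h5 : (M + 1) * ‖y - s‖ < (M + 1) * (ε / (M + 1)) :=
      mul_lt_mul_of_pos_left h3 (by linarith)
    have h6 : (M + 1) * (ε / (M + 1)) = ε := by
      have : M + 1 ≠ 0 := by linarith
      field_simp
    linarith
  -- algebraic complement and dense sequence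
  obtain ⟨U, hU⟩ := Submodule.exists_isCompl Y
  let d : ℕ → E := TopologicalSpace.denseSeq E
  have hdec : ∀ k, ∃ y ∈ Y, ∃ w ∈ U, y + w = d k := by
    intro k
    have : d k ∈ Y ⊔ U := by rw [hU.sup_eq_top]; trivial
    exact Submodule.mem_sup.mp this
  choose yy hyy w hw hyw using hdec
  let W : ℕ → Submodule 𝕜 E := fun k => Submodule.span 𝕜 (w '' Set.Iio k)
  have hWU : ∀ k, W k ≤ U := by
    intro k
    apply Submodule.span_le.mpr
    rintro _ ⟨j, _, rfl⟩
    exact hw j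
  have hWfin : ∀ k, FiniteDimensional 𝕜 (W k) := fun k =>
    FiniteDimensional.span_of_finite 𝕜 ((Set.finite_Iio k).image w)
  have hWdisj : ∀ k, Disjoint Y (W k) := fun k => hU.disjoint.mono_right (hWU k)
  have hWmono : ∀ {j k}, j ≤ k → W j ≤ W k := by
    intro j k hjk
    exact Submodule.span_mono (Set.image_mono (Set.Iio_subset_Iio hjk))
  let P : ℕ → ℕ → Prop := fun n k => ∀ y ∈ Y, ∀ v ∈ W k, ‖g n y‖ ≤ C * ‖y + v‖
  have hPev : ∀ k, ∀ᶠ n in atTop, P n k := by
    intro k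
    have := hWfin k
    exact unif_estimate Y (W k) hYc (hWdisj k) g M hM hgM hg0 C hC
  have hP0 : ∀ n, P n 0 := by
    intro n y hy v hv
    have : v = 0 := by
      have h0 : W 0 = ⊥ := by simp [W]
      rw [h0] at hv
      exact (Submodule.mem_bot 𝕜).mp hv
    rw [this, add_zero]
    exact (hgM n y hy).trans (mul_le_mul_of_nonneg_right (by linarith) (norm_nonneg _))
  let kk : ℕ → ℕ := fun n => Nat.findGreatest (P n) n
  have hkk : ∀ n, P n (kk n) := fun n => Nat.findGreatest_spec (Nat.zero_le n) (hP0 n)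
  have hext := fun n => extend_vanish Y (W (kk n)) (hWdisj (kk n)) (g n) C hC0 (hkk n)
  choose f hfY hfW hfC using hext
  refine ⟨f, hfY, hfC, ?_⟩
  -- f n vanishes on w k eventually
  have hfw : ∀ k, ∃ N, ∀ n ≥ N, f n (w k) = 0 := by
    intro k
    obtain ⟨N, hN⟩ := eventually_atTop.mp (hPev (k + 1))
    refine ⟨max N (k + 1), fun n hn => ?_⟩
    have h1 : P n (k + 1) := hN n (le_trans (le_max_left _ _) hn)
    have h2 : k + 1 ≤ kk n := Nat.le_findGreatest (le_trans (le_max_right _ _) hn) h1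
    exact hfW n (w k) (hWmono h2 (Submodule.subset_span ⟨k, Set.mem_Iio.mpr (Nat.lt_succ_self k), rfl⟩))
  have hmem : ∀ k, d k ∈ (Y ⊔ ⨅ n, LinearMap.ker (f n : E →ₗ[𝕜] 𝕜) : Submodule 𝕜 E) := by
    intro k
    obtain ⟨N, hN⟩ := hfw k
    let s : E := ∑ n ∈ Finset.range N, (f n (w k)) • x n
    have hs : s ∈ Y := Y.sum_mem fun n _ => Y.smul_mem _ (hxY n)
    have hz : w k - s ∈ ⨅ n, LinearMap.ker (f n : E →ₗ[𝕜] 𝕜) := by
      rw [Submodule.mem_iInf]
      intro m
      rw [LinearMap.mem_ker]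
      change f m (w k - s) = 0
      have h1 : f m s = if m < N then f m (w k) else 0 := by
        simp only [s, map_sum, map_smul, smul_eq_mul]
        have h2 : ∀ n ∈ Finset.range N, f n (w k) * f m (x n) = if m = n then f m (w k) else 0 := by
          intro n _
          rw [hfY m (x n) (hxY n), hgx]
          by_cases hmn : m = n
          · subst hmn; simp
          · simp [hmn]
        rw [Finset.sum_congr rfl h2, Finset.sum_ite_eq]
        simp [Finset.mem_range]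
      rw [map_sub, h1]
      by_cases hm : m < N
      · rw [if_pos hm, sub_self]
      · rw [if_neg hm, sub_zero]
        exact hN m (not_lt.mp hm)
    have h1 : d k = (yy k + s) + (w k - s) := by
      rw [← hyw k]; abel
    rw [h1]
    exact Submodule.add_mem_sup (Y.add_mem (hyy k) hs) hz
  have hdense : DenseRange d := TopologicalSpace.denseRange_denseSeq E
  exact hdense.mono (by rintro _ ⟨k, rfl⟩; exact hmem k)

/-- Let x be a minimal sequence in a separable Banach space E, with associated functionals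
φ n on the closed linear span of x satisfying ‖φ n‖ ≤ M (no bound on ‖x n‖ is needed). For every
C > 2 M there are f n in the dual of E extending φ n with ‖f n‖ ≤ C such that the closed span of x
plus the common kernel of all f n is dense in E. -/
theorem result {𝕜 : Type*} [RCLike 𝕜] {E : Type*} [NormedAddCommGroup E] [NormedSpace 𝕜 E]
    [CompleteSpace E] [TopologicalSpace.SeparableSpace E]
    (x : ℕ → E)
    (φ : ℕ → ((Submodule.span 𝕜 (Set.range x)).topologicalClosure →L[𝕜] 𝕜))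
    (hφ : ∀ i j, ∀ z : (Submodule.span 𝕜 (Set.range x)).topologicalClosure, (z : E) = x j →
      φ i z = if i = j then 1 else 0)
    (M : ℝ) (hφM : ∀ n, ‖φ n‖ ≤ M) (C : ℝ) (hC : 2 * M < C) :
    ∃ f : ℕ → (E →L[𝕜] 𝕜),
      (∀ n, ∀ z : (Submodule.span 𝕜 (Set.range x)).topologicalClosure, f n z = φ n z) ∧
      (∀ n, ‖f n‖ ≤ C) ∧
      Dense (((Submodule.span 𝕜 (Set.range x)).topologicalClosure
        ⊔ ⨅ n, LinearMap.ker (f n : E →ₗ[𝕜] 𝕜) : Submodule 𝕜 E) : Set E) := by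
  have hM : 0 ≤ M := (norm_nonneg (φ 0)).trans (hφM 0)
  have hext := fun n => exists_extension_norm_eq
    (Submodule.span 𝕜 (Set.range x)).topologicalClosure (φ n)
  choose g hg hgn using hext
  have hxY : ∀ n, x n ∈ (Submodule.span 𝕜 (Set.range x)).topologicalClosure := fun n =>
    Submodule.le_topologicalClosure _ (Submodule.subset_span ⟨n, rfl⟩)
  obtain ⟨f, hf1, hf2, hf3⟩ := main_construction x g
    (fun i j => by
      have h1 := hg i ⟨x j, hxY j⟩
      have h2 := hφ i j ⟨x j, hxY j⟩ rfl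
      rw [← h2, ← h1]) M hM
    (fun n y _ => (g n).le_opNorm y |>.trans
      (mul_le_mul_of_nonneg_right ((hgn n).le.trans (hφM n)) (norm_nonneg _))) C hC
  refine ⟨f, ?_, hf2, hf3⟩
  intro n z
  rw [hf1 n z z.2, hg n z]

end Pool.Agent.Results.MP_b3b95b_an.BoundedDenseExtension
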